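import Pool.Agent.H99.CE.Targets

/-!
# The chains of the base
-/

set_option autoImplicit false

open MeasureTheory ProbabilityTheory Filter Topology
open scoped ENNReal
open Pool.Agent.H95 Pool.Agent.H95.Cop Pool.Agent.H96.Cop Pool.Agent.H99.CE

namespace Pool.Agent.H98.CEU

lemma bfm_lt {n0 J j c : ℕ} (hj : j < J) (hc : c ∈ TT n0 j) : c < J * n0 := by
  have h1 := (Finset.mem_Ico.1 hc).2
  exact lt_of_lt_of_le h1 (Nat.mul_le_mul_right n0 hj)

lemma bfm_CT {G : ℕ → (ℕ → ℝ) → ℝ≥0∞} (hG : ∀ b, Measurable (G b)) (T : Finset ℕ) (p : ℕ) :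
    Measurable (CT G T p) := by
  have h : CT G T p = fun x => ∑ j ∈ T, if p ≤ j then G (j - p) x else 0 := rfl
  rw [h]
  refine Finset.measurable_sum _ fun j _ => ?_
  by_cases hp : p ≤ j
  · simp only [if_pos hp]
    exact hG _
  · simp only [if_neg hp]
    exact measurable_const

/-- comparison of the double sums -/
lemma dsum (p c L : ℕ) (hc : c < L) (F : ℕ → ℕ → ℝ≥0∞) :
    ∑ i ∈ Finset.range (c - p + 1), ∑ D ∈ Finset.Icc 1 (c - p),
      (if i + D ≤ c - p then F i D else 0) ≤
    ∑ i ∈ Finset.range (L - p), ∑ D ∈ Finset.Icc 1 (L - 1 - p - i),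
      (if p + i + D ≤ c then F i D else 0) := by
  by_cases hp : p ≤ c
  · calc _ ≤ ∑ i ∈ Finset.range (c - p + 1), ∑ D ∈ Finset.Icc 1 (L - 1 - p - i),
          (if p + i + D ≤ c then F i D else 0) := by
          refine Finset.sum_le_sum fun i hi => ?_
          rw [← Finset.sum_filter, ← Finset.sum_filter]
          refine Finset.sum_le_sum_of_subset fun D hD => ?_
          rw [Finset.mem_filter, Finset.mem_Icc] at hD ⊢
          omega
      _ ≤ _ := by
          refine Finset.sum_le_sum_of_subset fun i hi => ?_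
          rw [Finset.mem_range] at hi ⊢
          omega
  · have h0 : c - p = 0 := by omega
    rw [h0]
    simp

/-- the double sum from a start `c` on -/
lemma dsum2 (c c' L : ℕ) (hc : c' < L) (F : ℕ → ℕ → ℝ≥0∞) :
    ∑ i ∈ Finset.range (c' - c + 1), ∑ D ∈ Finset.Icc 1 (c' - c),
      (if i + D ≤ c' - c then F (c + i) D else 0) ≤
    ∑ i ∈ Finset.range L, ∑ D ∈ Finset.Icc 1 (L - 1 - i),
      (if c ≤ i then (if i + D ≤ c' then F i D else 0) else 0) := by
  refine (dsum c c' L hc (fun i D => F (c + i) D)).trans ?_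
  have e1 : ∑ i ∈ Finset.range L, ∑ D ∈ Finset.Icc 1 (L - 1 - i),
      (if c ≤ i then (if i + D ≤ c' then F i D else 0) else 0) =
      ∑ i ∈ Finset.Ico c L, ∑ D ∈ Finset.Icc 1 (L - 1 - i),
        (if i + D ≤ c' then F i D else 0) := by
    have e2 : Finset.Ico c L = (Finset.range L).filter (fun i => c ≤ i) := by
      ext i
      simp only [Finset.mem_Ico, Finset.mem_filter, Finset.mem_range]
      omega
    rw [e2, Finset.sum_filter]
    refine Finset.sum_congr rfl fun i _ => ?_
    by_cases h : c ≤ i
    · simp [h]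
    · simp [h]
  rw [e1, Finset.sum_Ico_eq_sum_range]
  refine le_of_eq (Finset.sum_congr rfl fun i _ => ?_)
  have e3 : L - 1 - c - i = L - 1 - (c + i) := by omega
  rw [e3]

theorem pf_BFM (hPFM : T_PFM) (hBBX : T_BBX) (hCDC : T_CDC) : T_BFM := by
  intro K n0 k g hk hn0 hg J j hj
  have hw1 := (hPFM.2 K).1 (n0 * k)
  have hw0 := (hPFM.2 K).2 (n0 * k) k
  have hN1 := (hPFM.1 _ hw1).2.2
  have hN0 := (hPFM.1 _ hw0).2.2
  refine ⟨⟨fun a => (hN0 k true false a).1, fun a => hN0 k true true a,
    fun p => bfm_CT (fun b => (hN1 k true false b).1) _ p, ?_, ?_⟩, ?_⟩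
  · intro p x h
    unfold CT
    refine Finset.sum_eq_zero fun c hc => ?_
    rw [if_neg (by have := h c hc; omega)]
  · intro p hp x
    have hR : ∑ i ∈ Finset.range (J * n0 - p), ∑ D ∈ Finset.Icc 1 (J * n0 - 1 - p - i),
        NX (w0 K (n0 * k) k) k true true i x * (g D * ex ((i + 1) * k) ((i + D) * k) x *
          CT (NX (w1 K (n0 * k)) k true false) (TT n0 j) (p + i + D)
            (shift ((i + D) * k) x)) =
        ∑ c ∈ TT n0 j, ∑ i ∈ Finset.range (J * n0 - p),
          ∑ D ∈ Finset.Icc 1 (J * n0 - 1 - p - i), if p + i + D ≤ c then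
            NX (w0 K (n0 * k) k) k true true i x * (g D * ex ((i + 1) * k) ((i + D) * k) x *
              NX (w1 K (n0 * k)) k true false (c - (p + i + D)) (shift ((i + D) * k) x))
            else 0 := by
      rw [Finset.sum_comm]
      refine Finset.sum_congr rfl fun i _ => ?_
      rw [Finset.sum_comm]
      refine Finset.sum_congr rfl fun D _ => ?_
      rw [CT, Finset.mul_sum, Finset.mul_sum]
      refine Finset.sum_congr rfl fun c _ => ?_
      by_cases h : p + i + D ≤ c
      · rw [if_pos h, if_pos h]
      · rw [if_neg h, if_neg h, mul_zero, mul_zero]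
    rw [hR, CT, ← Finset.sum_add_distrib]
    refine Finset.sum_le_sum fun c hc => ?_
    by_cases hpc : p ≤ c
    · rw [if_pos hpc, if_pos hpc]
      refine (hCDC K (n0 * k) k g hk hg true (c - p) x).trans (add_le_add le_rfl ?_)
      have e2 : ∀ i D, c - p - i - D = c - (p + i + D) := fun i D => by omega
      simp only [e2]
      exact dsum p c (J * n0) (bfm_lt hj hc) (fun i D =>
        NX (w0 K (n0 * k) k) k true true i x * (g D * ex ((i + 1) * k) ((i + D) * k) x *
          NX (w1 K (n0 * k)) k true false (c - (p + i + D)) (shift ((i + D) * k) x)))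
    · rw [if_neg hpc, if_neg hpc, zero_add]
      exact zero_le
  · intro x
    rw [hBBX (w1 K (n0 * k)) k n0 j x hk hn0]
    have hBN : ∀ a y, BX (w1 K (n0 * k)) k a y = NX (w1 K (n0 * k)) k false false a y := by
      intro a y
      unfold BX NX
      simp
    have hT : ∀ c, (∑ r ∈ Finset.range n0, if c ≤ j * n0 + r then
        BX (w1 K (n0 * k)) k (j * n0 + r - c) (shift (c * k) x) else 0) =
        ∑ c' ∈ TT n0 j, if c ≤ c' then
          NX (w1 K (n0 * k)) k false false (c' - c) (shift (c * k) x) else 0 := by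
      intro c
      rw [TT, Finset.sum_Ico_eq_sum_range]
      have h1 : (j + 1) * n0 - j * n0 = n0 := by
        rw [Nat.add_mul, one_mul, Nat.add_sub_cancel_left]
      rw [h1]
      simp only [hBN]
    simp only [hT]
    -- the right side
    have hR : ∑ i ∈ Finset.range (J * n0), ∑ D ∈ Finset.Icc 1 (J * n0 - 1 - i),
        (∑ c ∈ Finset.range (min n0 (i + 1)),
          NX (w0 K (n0 * k) k) k false true (i - c) (shift (c * k) x)) *
        (g D * ex ((i + 1) * k) ((i + D) * k) x *
          CT (NX (w1 K (n0 * k)) k true false) (TT n0 j) (i + D) (shift ((i + D) * k) x)) =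
        ∑ c ∈ Finset.range n0, ∑ c' ∈ TT n0 j, ∑ i ∈ Finset.range (J * n0),
          ∑ D ∈ Finset.Icc 1 (J * n0 - 1 - i), (if c ≤ i then (if i + D ≤ c' then
            NX (w0 K (n0 * k) k) k false true (i - c) (shift (c * k) x) *
            (g D * ex ((i + 1) * k) ((i + D) * k) x *
              NX (w1 K (n0 * k)) k true false (c' - (i + D)) (shift ((i + D) * k) x))
            else 0) else 0) := by
      have e1 : ∀ c, (∑ c' ∈ TT n0 j, ∑ i ∈ Finset.range (J * n0),
          ∑ D ∈ Finset.Icc 1 (J * n0 - 1 - i), (if c ≤ i then (if i + D ≤ c' then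
            NX (w0 K (n0 * k) k) k false true (i - c) (shift (c * k) x) *
            (g D * ex ((i + 1) * k) ((i + D) * k) x *
              NX (w1 K (n0 * k)) k true false (c' - (i + D)) (shift ((i + D) * k) x))
            else 0) else 0)) = ∑ i ∈ Finset.range (J * n0),
          ∑ D ∈ Finset.Icc 1 (J * n0 - 1 - i), if c ≤ i then
            NX (w0 K (n0 * k) k) k false true (i - c) (shift (c * k) x) *
            (g D * ex ((i + 1) * k) ((i + D) * k) x *
              CT (NX (w1 K (n0 * k)) k true false) (TT n0 j) (i + D)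
                (shift ((i + D) * k) x)) else 0 := by
        intro c
        rw [Finset.sum_comm]
        refine Finset.sum_congr rfl fun i _ => ?_
        rw [Finset.sum_comm]
        refine Finset.sum_congr rfl fun D _ => ?_
        by_cases h : c ≤ i
        · simp only [if_pos h]
          rw [CT, Finset.mul_sum, Finset.mul_sum]
          refine Finset.sum_congr rfl fun c' _ => ?_
          by_cases h' : i + D ≤ c'
          · rw [if_pos h', if_pos h']
          · rw [if_neg h', if_neg h', mul_zero, mul_zero]
        · simp only [if_neg h, Finset.sum_const_zero]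
      simp only [e1]
      rw [Finset.sum_comm]
      refine Finset.sum_congr rfl fun i _ => ?_
      rw [Finset.sum_comm]
      refine Finset.sum_congr rfl fun D _ => ?_
      rw [Finset.sum_mul, ← Finset.sum_filter]
      refine Finset.sum_congr ?_ fun c _ => rfl
      ext c
      simp only [Finset.mem_range, Finset.mem_filter]
      omega
    rw [hR, ← Finset.sum_add_distrib]
    refine Finset.sum_le_sum fun c hc => ?_
    rw [← Finset.sum_add_distrib]
    refine Finset.sum_le_sum fun c' hc' => ?_
    by_cases hcc : c ≤ c'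
    · rw [if_pos hcc, if_pos hcc]
      refine (hCDC K (n0 * k) k g hk hg false (c' - c) (shift (c * k) x)).trans
        (add_le_add le_rfl ?_)
      refine le_trans (le_of_eq ?_) (dsum2 c c' (J * n0) (bfm_lt hj hc') (fun i D =>
        NX (w0 K (n0 * k) k) k false true (i - c) (shift (c * k) x) *
        (g D * ex ((i + 1) * k) ((i + D) * k) x *
          NX (w1 K (n0 * k)) k true false (c' - (i + D)) (shift ((i + D) * k) x))))
      refine Finset.sum_congr rfl fun i _ => Finset.sum_congr rfl fun D _ => ?_
      by_cases h : i + D ≤ c' - c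
      · rw [if_pos h, if_pos h, ex_shift, shift_shift]
        have e3 : c + i - c = i := by omega
        have e4 : (i + 1) * k + c * k = (c + i + 1) * k := by ring
        have e5 : (i + D) * k + c * k = (c + i + D) * k := by ring
        have e6 : c' - c - i - D = c' - (c + i + D) := by omega
        rw [e3, e4, e5, e6]
      · rw [if_neg h, if_neg h]
    · rw [if_neg hcc, if_neg hcc, zero_add]
      exact zero_le

end Pool.Agent.H98.CEU
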