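import Pool.Agent.H99.CE.Targets

/-!
# Ends and starts of the neutral stretches
-/

set_option autoImplicit false

open MeasureTheory ProbabilityTheory Filter Topology
open scoped ENNReal
open Pool.Agent.H95 Pool.Agent.H95.Cop Pool.Agent.H96.Cop Pool.Agent.H99.CE

namespace Pool.Agent.H98.CEU

/-- Hoelder for sums of powers -/
lemma sum_rpow_le {ι : Type*} (S : Finset ι) (f : ι → ℝ≥0∞) (θ : ℝ) (h0 : 0 < θ) (h1 : θ < 1) :
    ∑ i ∈ S, f i ^ θ ≤ (S.card : ℝ≥0∞) ^ (1 - θ) * (∑ i ∈ S, f i) ^ θ := by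
  have hpq : Real.HolderConjugate (1 / (1 - θ)) (1 / θ) := by
    rw [Real.holderConjugate_iff]
    refine ⟨?_, ?_⟩
    · rw [lt_div_iff₀ (by linarith)]; linarith
    · simp
  have h := ENNReal.inner_le_Lp_mul_Lq S (fun _ => (1 : ℝ≥0∞)) (fun i => f i ^ θ) hpq
  simp only [one_mul, ENNReal.one_rpow, Finset.sum_const, nsmul_eq_mul, mul_one, one_div,
    inv_inv] at h
  refine h.trans (le_of_eq ?_)
  congr 2
  refine Finset.sum_congr rfl fun i _ => ?_
  rw [← ENNReal.rpow_mul, mul_inv_cancel₀ h0.ne', ENNReal.rpow_one]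

lemma geo_le (q : ℝ) (h0 : 0 ≤ q) (h1 : q ≤ 1 / 2) (R : ℕ) :
    ∑ s ∈ Finset.range R, q ^ s ≤ 2 := by
  have h : (∑ s ∈ Finset.range R, q ^ s) * (1 - q) = 1 - q ^ R := by
    rw [← neg_inj, ← mul_neg, neg_sub, neg_sub]
    exact geom_sum_mul q R
  have h2 : 0 ≤ q ^ R := pow_nonneg h0 R
  have h3 : 0 ≤ ∑ s ∈ Finset.range R, q ^ s := Finset.sum_nonneg fun s _ => pow_nonneg h0 s
  nlinarith

lemma three_le (s : ℕ) : (3 : ℝ) + s ≤ 3 * 2 ^ s := by
  induction s with
  | zero => norm_num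
  | succ s ih =>
    rw [pow_succ]
    push_cast
    have : (1 : ℝ) ≤ 2 ^ s := one_le_pow₀ (by norm_num)
    linarith

/-- the sums over the boxes -/
lemma boxes (z : ℕ → ℝ≥0∞) (A α δ y : ℝ) (hA : 0 ≤ A) (hα : 0 < α) (hαδ : 5 * α ≤ δ)
    (hδ : δ ≤ 1 / 20) (hy0 : 0 ≤ y) (hy : y ≤ δ / 100)
    (h01 : z 0 + z 1 ≤ ENNReal.ofReal ((1 + α) * A)) (h0 : z 0 ≤ ENNReal.ofReal A)
    (hr : ∀ r, z (r + 1) ≤ ENNReal.ofReal (A * y ^ r)) (R : ℕ) :
    ∑ r ∈ Finset.range R, z r ≤ ENNReal.ofReal ((1 + δ) * A) ∧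
    ∑ r ∈ Finset.range R, om r * z r ≤ ENNReal.ofReal (4 * A) := by
  have hy2 : y ≤ 1 / 4 := by linarith
  constructor
  · calc ∑ r ∈ Finset.range R, z r ≤ ∑ r ∈ Finset.range (R + 2), z r :=
          Finset.sum_le_sum_of_subset (Finset.range_subset_range.mpr (by omega))
      _ = ∑ s ∈ Finset.range R, z (s + 1 + 1) + (z 0 + z 1) := by
          rw [Finset.sum_range_succ', Finset.sum_range_succ']
          ring
      _ ≤ ENNReal.ofReal (∑ s ∈ Finset.range R, A * y ^ (s + 1)) +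
          ENNReal.ofReal ((1 + α) * A) := by
          gcongr
          rw [ENNReal.ofReal_sum_of_nonneg fun s _ => by positivity]
          exact Finset.sum_le_sum fun s _ => hr (s + 1)
      _ = ENNReal.ofReal (∑ s ∈ Finset.range R, A * y ^ (s + 1) + (1 + α) * A) := by
          rw [ENNReal.ofReal_add (Finset.sum_nonneg fun s _ => by positivity) (by positivity)]
      _ ≤ ENNReal.ofReal ((1 + δ) * A) := by
          apply ENNReal.ofReal_le_ofReal
          have e : ∑ s ∈ Finset.range R, A * y ^ (s + 1) =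
              (A * y) * ∑ s ∈ Finset.range R, y ^ s := by
            rw [Finset.mul_sum]
            exact Finset.sum_congr rfl fun s _ => by ring
          rw [e]
          have := mul_le_mul_of_nonneg_left (geo_le y hy0 (by linarith) R)
            (mul_nonneg hA hy0)
          nlinarith
  · have hom : ∀ r : ℕ, om r = ENNReal.ofReal (1 + r) := by
      intro r
      unfold om
      rw [ENNReal.ofReal_add (by norm_num) (Nat.cast_nonneg r)]
      simp
    calc ∑ r ∈ Finset.range R, om r * z r ≤ ∑ r ∈ Finset.range (R + 2), om r * z r :=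
          Finset.sum_le_sum_of_subset (Finset.range_subset_range.mpr (by omega))
      _ = ∑ s ∈ Finset.range R, om (s + 1 + 1) * z (s + 1 + 1) + om (0 + 1) * z (0 + 1) +
          om 0 * z 0 := by
          rw [Finset.sum_range_succ', Finset.sum_range_succ']
      _ ≤ ENNReal.ofReal (∑ s ∈ Finset.range R, (3 + s) * (A * y ^ (s + 1))) +
          ENNReal.ofReal (2 * A) + ENNReal.ofReal A := by
          have a1 : ∑ s ∈ Finset.range R, om (s + 1 + 1) * z (s + 1 + 1) ≤
              ENNReal.ofReal (∑ s ∈ Finset.range R, (3 + s) * (A * y ^ (s + 1))) := by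
            rw [ENNReal.ofReal_sum_of_nonneg fun s _ => by positivity]
            refine Finset.sum_le_sum fun s _ => ?_
            rw [hom, ENNReal.ofReal_mul (by positivity)]
            refine mul_le_mul' (ENNReal.ofReal_le_ofReal ?_) (hr (s + 1))
            push_cast
            linarith
          have a2 : om (0 + 1) * z (0 + 1) ≤ ENNReal.ofReal (2 * A) := by
            rw [hom, ENNReal.ofReal_mul (by norm_num)]
            refine mul_le_mul' (ENNReal.ofReal_le_ofReal ?_) ((hr 0).trans (by simp))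
            push_cast
            norm_num
          have a3 : om 0 * z 0 ≤ ENNReal.ofReal A := by
            unfold om
            simpa using h0
          exact add_le_add (add_le_add a1 a2) a3
      _ = ENNReal.ofReal (∑ s ∈ Finset.range R, (3 + s) * (A * y ^ (s + 1)) + 2 * A + A) := by
          have hs : 0 ≤ ∑ s ∈ Finset.range R, (3 + (s : ℝ)) * (A * y ^ (s + 1)) :=
            Finset.sum_nonneg fun s _ => by positivity
          rw [ENNReal.ofReal_add (by positivity) hA, ENNReal.ofReal_add hs (by positivity)]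
      _ ≤ ENNReal.ofReal (4 * A) := by
          apply ENNReal.ofReal_le_ofReal
          have e : ∑ s ∈ Finset.range R, (3 + (s : ℝ)) * (A * y ^ (s + 1)) ≤
              (3 * A * y) * ∑ s ∈ Finset.range R, (2 * y) ^ s := by
            rw [Finset.mul_sum]
            refine Finset.sum_le_sum fun s _ => ?_
            have h1 := mul_le_mul_of_nonneg_right (three_le s)
              (show 0 ≤ A * y ^ (s + 1) by positivity)
            refine h1.trans (le_of_eq ?_)
            rw [mul_pow]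
            ring
          have := mul_le_mul_of_nonneg_left (geo_le (2 * y) (by linarith) (by linarith) R)
            (show 0 ≤ 3 * A * y by positivity)
          nlinarith

/-- sums over shifted sets -/
lemma eT_mul_le (Vb : ℕ → ℝ≥0∞) (w : ℕ → ℝ≥0∞) (m : ℝ≥0∞)
    (hm : ∀ n, ∑ a ∈ Finset.range n, Vb a * w a ≤ m) (T : Finset ℕ) (p : ℕ) (g : ℝ≥0∞)
    (hg : ∀ c ∈ T, p ≤ c → g ≤ w (c - p)) : eT Vb T p * g ≤ m := by
  unfold eT
  rw [Finset.sum_mul, ← Finset.sum_filter_add_sum_filter_not T (fun c => p ≤ c)]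
  have h2 : ∑ c ∈ T.filter (fun c => ¬ p ≤ c), (if p ≤ c then Vb (c - p) else 0) * g = 0 := by
    refine Finset.sum_eq_zero fun c hc => ?_
    rw [Finset.mem_filter] at hc
    simp [hc.2]
  rw [h2, add_zero]
  have h3 : ∑ c ∈ T.filter (fun c => p ≤ c), (if p ≤ c then Vb (c - p) else 0) * g ≤
      ∑ c ∈ T.filter (fun c => p ≤ c), Vb (c - p) * w (c - p) := by
    refine Finset.sum_le_sum fun c hc => ?_
    rw [Finset.mem_filter] at hc
    simp only [hc.2, if_true]
    exact mul_le_mul_right (hg c hc.1 hc.2) _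
  refine h3.trans ?_
  have hinj : Set.InjOn (fun c => c - p) (T.filter (fun c => p ≤ c) : Set ℕ) := by
    intro a ha b hb hab
    simp only [Finset.coe_filter, Set.mem_setOf_eq] at ha hb
    simp only at hab
    omega
  rw [← Finset.sum_image (f := fun a => Vb a * w a) hinj]
  refine le_trans (Finset.sum_le_sum_of_subset ?_) (hm ((T.sup id) + 1))
  intro a ha
  rw [Finset.mem_image] at ha
  obtain ⟨c, hc, rfl⟩ := ha
  rw [Finset.mem_filter] at hc
  have : c ≤ T.sup id := Finset.le_sup (f := id) hc.1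
  rw [Finset.mem_range]
  omega

lemma w_ge (α : ℝ) (n0 r a : ℕ) (hα : 0 < α) (hn : 2 ≤ n0) (h : r * n0 ≤ a) :
    ENNReal.ofReal ((n0 : ℝ) ^ (α * r)) ≤ ENNReal.ofReal ((n0 : ℝ) ^ (α * a / n0)) := by
  apply ENNReal.ofReal_le_ofReal
  have h1 : (1 : ℝ) ≤ n0 := by
    have : (2 : ℝ) ≤ n0 := by exact_mod_cast hn
    linarith
  apply Real.rpow_le_rpow_of_exponent_le h1
  have h2 : ((r : ℝ) * n0) ≤ a := by exact_mod_cast h
  rw [le_div_iff₀ (by linarith)]
  nlinarith

/-- the powers -/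
lemma pow_bd (X : ℝ≥0∞) (M α θ : ℝ) (n0 r : ℕ) (hM : 0 ≤ M) (hθ : 0 < θ) (hn : 2 ≤ n0)
    (h : X * ENNReal.ofReal ((n0 : ℝ) ^ (α * r)) ≤ ENNReal.ofReal M) :
    X ^ θ ≤ ENNReal.ofReal (M ^ θ * ((n0 : ℝ) ^ (-(α * θ))) ^ r) := by
  have hn0 : (0 : ℝ) < n0 := by
    have : (2 : ℝ) ≤ n0 := by exact_mod_cast hn
    linarith
  have hg : 0 < (n0 : ℝ) ^ (α * r) := Real.rpow_pos_of_pos hn0 _
  have h1 : X ≤ ENNReal.ofReal (M / (n0 : ℝ) ^ (α * r)) := by
    rw [ENNReal.ofReal_div_of_pos hg]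
    rw [ENNReal.le_div_iff_mul_le (Or.inl (by simpa using hg)) (Or.inl ENNReal.ofReal_ne_top)]
    exact h
  have h2 := ENNReal.rpow_le_rpow h1 hθ.le
  refine h2.trans (le_of_eq ?_)
  rw [ENNReal.ofReal_rpow_of_nonneg (by positivity) hθ.le]
  congr 1
  rw [Real.div_rpow hM hg.le, ← Real.rpow_mul hn0.le, ← Real.rpow_natCast, ← Real.rpow_mul hn0.le,
    div_eq_mul_inv, ← Real.rpow_neg hn0.le]
  congr 2
  ring

lemma two_pow_le (α θ : ℝ) (hα : 0 < α) (hα1 : α ≤ 1) (h : 1 - α ≤ θ) :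
    (2 : ℝ) ^ (1 - θ) ≤ 1 + α := by
  calc (2 : ℝ) ^ (1 - θ) ≤ 2 ^ α := Real.rpow_le_rpow_of_exponent_le (by norm_num) (by linarith)
    _ = (1 + 1) ^ α := by norm_num
    _ ≤ 1 + α * 1 := rpow_one_add_le_one_add_mul_self (by norm_num) hα.le hα1
    _ = 1 + α := by ring

theorem pf_EBT : T_EBT := by
  intro Vb m α θ δ n0 hα hαδ hδ hθ1 hθ2 hm hn hy hV
  have hn0 : (0 : ℝ) < n0 := by
    have : (2 : ℝ) ≤ n0 := by exact_mod_cast hn
    linarith
  have hα1 : α ≤ 1 := by linarith
  have hθ0 : 0 < θ := by linarith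
  have hnp : 0 < n0 := by omega
  have hone : ∀ a : ℕ, (1 : ℝ≥0∞) ≤ ENNReal.ofReal ((n0 : ℝ) ^ (α * a / n0)) := by
    intro a
    have := w_ge α n0 0 a hα hn (by omega)
    simpa using this
  have hle : ∀ (T : Finset ℕ) (p : ℕ), eT Vb T p ≤ ENNReal.ofReal m := by
    intro T p
    have := eT_mul_le Vb _ _ hV T p 1 (fun c _ _ => hone (c - p))
    rwa [mul_one] at this
  refine ⟨fun j p => hle _ p, ?_⟩
  have main : ∀ J p : ℕ, ∑ j ∈ Finset.Ico (p / n0) J, eT Vb (TT n0 j) p ^ θ ≤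
      ENNReal.ofReal ((1 + δ) * m ^ θ) ∧
      ∑ j ∈ Finset.Ico (p / n0) J, om (j - p / n0) * eT Vb (TT n0 j) p ^ θ ≤
      ENNReal.ofReal (4 * m ^ θ) := by
    intro J p
    set q := p / n0 with hq
    have hp1 : q * n0 ≤ p := Nat.div_mul_le_self p n0
    have hp2 : p < (q + 1) * n0 := by
      have := Nat.lt_div_mul_add (a := p) hnp
      rw [← hq] at this
      rw [Nat.add_mul]; omega
    have hb := boxes (fun r => eT Vb (TT n0 (q + r)) p ^ θ) (m ^ θ) α δ
      ((n0 : ℝ) ^ (-(α * θ))) (by positivity) hα hαδ hδ (by positivity) hy (by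
        have h1 := sum_rpow_le (Finset.range 2) (fun r => eT Vb (TT n0 (q + r)) p) θ hθ0 hθ2
        rw [Finset.sum_range_succ, Finset.sum_range_one, Finset.sum_range_succ,
          Finset.sum_range_one, Finset.card_range] at h1
        refine h1.trans ?_
        have h2 : eT Vb (TT n0 (q + 0)) p + eT Vb (TT n0 (q + 1)) p ≤ ENNReal.ofReal m := by
          refine le_trans (le_of_eq ?_) (hle (Finset.Ico (q * n0) ((q + 1 + 1) * n0)) p)
          unfold eT TT
          exact Finset.sum_Ico_consecutive _ (Nat.mul_le_mul_right _ (by omega))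
            (Nat.mul_le_mul_right _ (by omega))
        have h3 : (eT Vb (TT n0 (q + 0)) p + eT Vb (TT n0 (q + 1)) p) ^ θ ≤
            ENNReal.ofReal (m ^ θ) := by
          rw [← ENNReal.ofReal_rpow_of_pos hm]
          exact ENNReal.rpow_le_rpow h2 hθ0.le
        have h4 : ((2 : ℕ) : ℝ≥0∞) ^ (1 - θ) ≤ ENNReal.ofReal (1 + α) := by
          have e : ((2 : ℕ) : ℝ≥0∞) = ENNReal.ofReal 2 := by simp
          rw [e, ENNReal.ofReal_rpow_of_pos (by norm_num)]
          exact ENNReal.ofReal_le_ofReal (two_pow_le α θ hα hα1 hθ1)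
        rw [ENNReal.ofReal_mul (by positivity)]
        exact mul_le_mul' h4 h3) (by
        rw [← ENNReal.ofReal_rpow_of_pos hm]
        exact ENNReal.rpow_le_rpow (hle _ p) hθ0.le) (by
        intro r
        apply pow_bd _ m α θ n0 r hm.le hθ0 hn
        apply eT_mul_le Vb _ _ hV
        intro c hc hpc
        apply w_ge α n0 r (c - p) hα hn
        unfold TT at hc
        rw [Finset.mem_Ico] at hc
        have e : (q + (r + 1)) * n0 = r * n0 + (q + 1) * n0 := by ring
        omega) (J - q)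
    rw [Finset.sum_Ico_eq_sum_range, Finset.sum_Ico_eq_sum_range]
    refine ⟨hb.1, ?_⟩
    have e : ∀ r, q + r - q = r := fun r => by omega
    simp only [e]
    exact hb.2
  exact ⟨fun J p => (main J p).1, fun J p => (main J p).2⟩

/-- `sb` as a sum of `eT` -/
lemma sb_eq (Vb : ℕ → ℝ≥0∞) (n0 i : ℕ) :
    sb Vb n0 i = ∑ c ∈ Finset.range n0, if c ≤ i then Vb (i - c) else 0 := by
  unfold sb
  rw [← Finset.sum_filter]
  congr 1
  ext c
  simp only [Finset.mem_range, Finset.mem_filter]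
  omega

lemma sum_sb (Vb : ℕ → ℝ≥0∞) (n0 : ℕ) (S : Finset ℕ) :
    ∑ i ∈ S, sb Vb n0 i = ∑ c ∈ Finset.range n0, eT Vb S c := by
  simp only [sb_eq]
  unfold eT
  exact Finset.sum_comm

lemma sum_blocks (n0 : ℕ) (f : ℕ → ℝ≥0∞) (L : ℕ) :
    ∑ i ∈ Finset.range (L * n0), f i = ∑ r ∈ Finset.range L, ∑ i ∈ TT n0 r, f i := by
  induction L with
  | zero => simp
  | succ L ih =>
    rw [Finset.sum_range_succ, ← ih]
    unfold TT
    rw [Finset.range_eq_Ico, Finset.range_eq_Ico]
    exact (Finset.sum_Ico_consecutive f (Nat.zero_le _) (Nat.mul_le_mul_right _ (by omega))).symm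

theorem pf_SBT : T_SBT := by
  intro Vb m α θ δ n0 hα hαδ hδ hθ1 hθ2 hm hn hy hV
  have hn0 : (0 : ℝ) < n0 := by
    have : (2 : ℝ) ≤ n0 := by exact_mod_cast hn
    linarith
  have hα1 : α ≤ 1 := by linarith
  have hθ0 : 0 < θ := by linarith
  have hnp : 0 < n0 := by omega
  have hone : ∀ a : ℕ, (1 : ℝ≥0∞) ≤ ENNReal.ofReal ((n0 : ℝ) ^ (α * a / n0)) := by
    intro a
    have := w_ge α n0 0 a hα hn (by omega)
    simpa using this
  have hnm : ENNReal.ofReal (n0 * m) = (n0 : ℝ≥0∞) * ENNReal.ofReal m := by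
    rw [ENNReal.ofReal_mul hn0.le, ENNReal.ofReal_natCast]
  -- the sums over a set with all weights at least `g`
  have hset : ∀ (S : Finset ℕ) (g : ℝ≥0∞), (∀ i ∈ S, ∀ c < n0, c ≤ i →
      g ≤ ENNReal.ofReal ((n0 : ℝ) ^ (α * ((i - c : ℕ) : ℝ) / n0))) →
      (∑ i ∈ S, sb Vb n0 i) * g ≤ ENNReal.ofReal (n0 * m) := by
    intro S g hg
    rw [sum_sb, Finset.sum_mul, hnm]
    calc ∑ c ∈ Finset.range n0, eT Vb S c * g ≤ ∑ c ∈ Finset.range n0, ENNReal.ofReal m := by
          refine Finset.sum_le_sum fun c hc => ?_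
          rw [Finset.mem_range] at hc
          exact eT_mul_le Vb _ _ hV S c g (fun i hi hci => hg i hi c hc hci)
      _ = (n0 : ℝ≥0∞) * ENNReal.ofReal m := by
          rw [Finset.sum_const, Finset.card_range, nsmul_eq_mul]
  have hset1 : ∀ S : Finset ℕ, ∑ i ∈ S, sb Vb n0 i ≤ ENNReal.ofReal (n0 * m) := by
    intro S
    have := hset S 1 (fun i _ c _ _ => hone (i - c))
    rwa [mul_one] at this
  have hcardT : ∀ r, (TT n0 r).card = n0 := by
    intro r
    unfold TT
    rw [Nat.card_Ico, Nat.add_mul, one_mul]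
    omega
  have hnr : ∀ k : ℝ, 0 < k → k * (n0 : ℝ) ^ (1 - θ) * (n0 * m) ^ θ = k * (n0 * m ^ θ) := by
    intro k _
    rw [Real.mul_rpow hn0.le hm.le]
    have : (n0 : ℝ) ^ (1 - θ) * (n0 : ℝ) ^ θ = n0 := by
      rw [← Real.rpow_add hn0]; simp
    calc k * (n0 : ℝ) ^ (1 - θ) * ((n0 : ℝ) ^ θ * m ^ θ) =
        k * (((n0 : ℝ) ^ (1 - θ) * (n0 : ℝ) ^ θ) * m ^ θ) := by ring
      _ = k * (n0 * m ^ θ) := by rw [this]
  have hc1 : ((n0 : ℕ) : ℝ≥0∞) ^ (1 - θ) = ENNReal.ofReal ((n0 : ℝ) ^ (1 - θ)) := by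
    rw [← ENNReal.ofReal_natCast, ENNReal.ofReal_rpow_of_pos hn0]
  have hb := fun R => boxes (fun r => ∑ i ∈ TT n0 r, sb Vb n0 i ^ θ) (n0 * m ^ θ) α δ
    ((n0 : ℝ) ^ (-(α * θ))) (by positivity) hα hαδ hδ (by positivity) hy (by
      have h1 := sum_rpow_le (Finset.Ico (0 * n0) ((1 + 1) * n0)) (fun i => sb Vb n0 i) θ hθ0 hθ2
      have h2 : ∑ i ∈ TT n0 0, sb Vb n0 i ^ θ + ∑ i ∈ TT n0 1, sb Vb n0 i ^ θ =
          ∑ i ∈ Finset.Ico (0 * n0) ((1 + 1) * n0), sb Vb n0 i ^ θ := by
        unfold TT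
        exact Finset.sum_Ico_consecutive _ (Nat.mul_le_mul_right _ (by omega))
          (Nat.mul_le_mul_right _ (by omega))
      rw [h2]
      refine h1.trans ?_
      rw [Nat.card_Ico]
      have h3 : (∑ i ∈ Finset.Ico (0 * n0) ((1 + 1) * n0), sb Vb n0 i) ^ θ ≤
          ENNReal.ofReal ((n0 * m) ^ θ) := by
        rw [← ENNReal.ofReal_rpow_of_pos (by positivity)]
        exact ENNReal.rpow_le_rpow (hset1 _) hθ0.le
      have h4 : ((((1 + 1) * n0 - 0 * n0 : ℕ)) : ℝ≥0∞) ^ (1 - θ) ≤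
          ENNReal.ofReal ((1 + α) * (n0 : ℝ) ^ (1 - θ)) := by
        have e : ((((1 + 1) * n0 - 0 * n0 : ℕ)) : ℝ≥0∞) = ENNReal.ofReal (2 * n0) := by
          rw [← ENNReal.ofReal_natCast]
          congr 1
          have : (1 + 1) * n0 - 0 * n0 = 2 * n0 := by omega
          rw [this]
          push_cast
          ring
        rw [e, ENNReal.ofReal_rpow_of_pos (by positivity), Real.mul_rpow (by norm_num) hn0.le]
        apply ENNReal.ofReal_le_ofReal
        exact mul_le_mul_of_nonneg_right (two_pow_le α θ hα hα1 hθ1) (by positivity)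
      refine (mul_le_mul' h4 h3).trans (le_of_eq ?_)
      rw [← ENNReal.ofReal_mul (by positivity), hnr (1 + α) (by positivity)]) (by
      have h1 := sum_rpow_le (TT n0 0) (fun i => sb Vb n0 i) θ hθ0 hθ2
      rw [hcardT] at h1
      refine h1.trans ?_
      have h3 : (∑ i ∈ TT n0 0, sb Vb n0 i) ^ θ ≤ ENNReal.ofReal ((n0 * m) ^ θ) := by
        rw [← ENNReal.ofReal_rpow_of_pos (by positivity)]
        exact ENNReal.rpow_le_rpow (hset1 _) hθ0.le
      rw [hc1]
      refine (mul_le_mul_right h3 _).trans (le_of_eq ?_)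
      rw [← ENNReal.ofReal_mul (by positivity)]
      congr 1
      have := hnr 1 one_pos
      simpa using this) (by
      intro r
      have h1 := sum_rpow_le (TT n0 (r + 1)) (fun i => sb Vb n0 i) θ hθ0 hθ2
      rw [hcardT] at h1
      refine h1.trans ?_
      have h2 := pow_bd (∑ i ∈ TT n0 (r + 1), sb Vb n0 i) (n0 * m) α θ n0 r (by positivity) hθ0
        hn (hset _ _ (by
          intro i hi c hc hci
          apply w_ge α n0 r (i - c) hα hn
          unfold TT at hi
          rw [Finset.mem_Ico, Nat.add_mul, one_mul] at hi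
          omega))
      rw [hc1]
      refine (mul_le_mul_right h2 _).trans (le_of_eq ?_)
      rw [← ENNReal.ofReal_mul (by positivity)]
      congr 1
      have := hnr 1 one_pos
      rw [one_mul, one_mul] at this
      rw [← mul_assoc, this]) R
  refine ⟨?_, ?_, ?_⟩
  · intro i
    unfold sb
    calc ∑ c ∈ Finset.range (min n0 (i + 1)), Vb (i - c)
        = ∑ a ∈ (Finset.range (min n0 (i + 1))).image (fun c => i - c), Vb a := by
          rw [Finset.sum_image]
          intro a ha b hb hab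
          simp only [Finset.coe_range, Set.mem_Iio] at ha hb
          simp only at hab
          omega
      _ ≤ ∑ a ∈ Finset.range (i + 1), Vb a := by
          apply Finset.sum_le_sum_of_subset
          intro a ha
          rw [Finset.mem_image] at ha
          obtain ⟨c, _, rfl⟩ := ha
          rw [Finset.mem_range]
          omega
      _ ≤ ∑ a ∈ Finset.range (i + 1), Vb a * ENNReal.ofReal ((n0 : ℝ) ^ (α * a / n0)) :=
          Finset.sum_le_sum fun a _ => le_mul_of_one_le_right' (hone a)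
      _ ≤ ENNReal.ofReal m := hV _
  · intro L
    calc ∑ i ∈ Finset.range L, sb Vb n0 i ^ θ ≤ ∑ i ∈ Finset.range (L * n0), sb Vb n0 i ^ θ :=
          Finset.sum_le_sum_of_subset
            (Finset.range_subset_range.mpr (Nat.le_mul_of_pos_right L hnp))
      _ = ∑ r ∈ Finset.range L, ∑ i ∈ TT n0 r, sb Vb n0 i ^ θ := sum_blocks n0 _ L
      _ ≤ ENNReal.ofReal ((1 + δ) * (n0 * m ^ θ)) := (hb L).1
      _ = ENNReal.ofReal ((1 + δ) * n0 * m ^ θ) := by rw [mul_assoc]
  · intro L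
    calc ∑ i ∈ Finset.range L, om (i / n0) * sb Vb n0 i ^ θ
        ≤ ∑ i ∈ Finset.range (L * n0), om (i / n0) * sb Vb n0 i ^ θ :=
          Finset.sum_le_sum_of_subset
            (Finset.range_subset_range.mpr (Nat.le_mul_of_pos_right L hnp))
      _ = ∑ r ∈ Finset.range L, ∑ i ∈ TT n0 r, om (i / n0) * sb Vb n0 i ^ θ :=
          sum_blocks n0 _ L
      _ = ∑ r ∈ Finset.range L, om r * ∑ i ∈ TT n0 r, sb Vb n0 i ^ θ := by
          refine Finset.sum_congr rfl fun r _ => ?_
          rw [Finset.mul_sum]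
          refine Finset.sum_congr rfl fun i hi => ?_
          unfold TT at hi
          rw [Finset.mem_Ico] at hi
          have : i / n0 = r := by
            apply Nat.div_eq_of_lt_le hi.1
            exact hi.2
          rw [this]
      _ ≤ ENNReal.ofReal (4 * (n0 * m ^ θ)) := (hb L).2
      _ = ENNReal.ofReal (4 * n0 * m ^ θ) := by rw [mul_assoc]

end Pool.Agent.H98.CEU
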