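import Pool.Agent.H55.CU.All
import Pool.Agent.H11.CE.BDC
import Pool.Agent.H17.CRX.PFM
import Pool.Agent.H17.CRX.VPT
import Pool.Agent.H21.CE.LYA
import Pool.Agent.H21.CE.PRL
import Pool.Agent.H36.CE.ASP
import Pool.Agent.H36.CE.CCP
import Pool.Agent.H36.CE.NEG
import Pool.Agent.H36.CE.STR
import Pool.Agent.H39.CE.BG0
import Pool.Agent.H39.CE.BT0
import Pool.Agent.H39.CE.PRB
import Pool.Agent.H40.CE.BAS
import Pool.Agent.H40.CE.BVN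
import Pool.Agent.H47.CE.SUP
import Pool.Agent.H49.CE.FCR
import Pool.Agent.H49.CE.VTH
import Pool.Agent.H5.CE.SR1
import Pool.Agent.H51.CE.SCL
import Pool.Agent.H53.CE.CCT
import Pool.Agent.H53.CE.LNK
import Pool.Agent.H54.CE.GLO
import Pool.Agent.H60.CE.PFD
import Pool.Agent.H60.CE.PRC
import Pool.Agent.H60.CE.STM
import Pool.Agent.H60.CE.TMN
import Pool.Agent.H61.CE.SHT
import Pool.Agent.H68.CE.EST
import Pool.Agent.H68.CE.STL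
import Pool.Agent.H75.CE.CBT
import Pool.Agent.H79.CRX.CDC
import Pool.Agent.H85.CE.PRP
import Pool.Agent.H85.CE.UPR
import Pool.Agent.H89.CE.INS
import Pool.Agent.H91.CRX.A
import Pool.Agent.H96.CE.GHT
import Pool.Agent.H96.CE.MO1
import Pool.Agent.H96.CE.MSS
import Pool.Agent.H97.CE.KHT
import Pool.Agent.H97.CE.NNT
import Pool.Agent.H98.CEU.BFM
import Pool.Agent.H98.CEU.EBT
import Pool.Agent.H99.CE.LOW
import Pool.Agent.H99.CE.ST1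
import Pool.Agent.H99.CE.ST2
import Pool.Agent.H99.CE.VIN

/-!
# The exact constant, upper half: all rows closed
-/

set_option autoImplicit false

namespace Pool.Agent.H98.CEU

open Pool.Agent.H99.CE

theorem c_BBX : T_BBX :=
  Pool.Agent.H91.CRX.pf_BBX

theorem c_CBT : T_CBT :=
  Pool.Agent.H75.CE.pf_CBT

theorem c_CCP : T_CCP :=
  Pool.Agent.H36.CE.pf_CCP

theorem c_CCT : T_CCT :=
  Pool.Agent.H53.CE.pf_CCT

theorem c_EBT : T_EBT :=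
  Pool.Agent.H98.CEU.pf_EBT

theorem c_EST : T_EST :=
  Pool.Agent.H68.CE.pf_EST

theorem c_GHT : T_GHT :=
  Pool.Agent.H96.CE.pf_GHT

theorem c_GLO : T_GLO :=
  Pool.Agent.H54.CE.pf_GLO

theorem c_GMU : T_GMU :=
  Pool.Agent.H96.CE.pf_GMU

theorem c_HFT : T_HFT :=
  Pool.Agent.H54.CE.pf_HFT

theorem c_IND : T_IND :=
  Pool.Agent.H91.CRX.pf_IND

theorem c_KHT : T_KHT :=
  Pool.Agent.H97.CE.pf_KHT

theorem c_LNG : T_LNG :=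
  Pool.Agent.H54.CE.pf_LNG

theorem c_LNK : T_LNK :=
  Pool.Agent.H53.CE.pf_LNK

theorem c_LOW : T_LOW :=
  Pool.Agent.H99.CE.pf_LOW c_CCP c_IND

theorem c_LYA : T_LYA :=
  Pool.Agent.H21.CE.pf_LYA

theorem c_NAT : T_NAT :=
  Pool.Agent.H91.CRX.pf_NAT

theorem c_NEG : T_NEG :=
  Pool.Agent.H36.CE.pf_NEG

theorem c_NNT : T_NNT :=
  Pool.Agent.H97.CE.pf_NNT

theorem c_PFD : T_PFD :=
  Pool.Agent.H60.CE.pf_PFD

theorem c_PFM : T_PFM :=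
  Pool.Agent.H17.CRX.pf_PFM

theorem c_PHI : T_PHI :=
  Pool.Agent.H54.CE.pf_PHI

theorem c_PRB : T_PRB :=
  Pool.Agent.H39.CE.pf_PRB

theorem c_PRC : T_PRC :=
  Pool.Agent.H60.CE.pf_PRC

theorem c_PRL : T_PRL :=
  Pool.Agent.H21.CE.pf_PRL

theorem c_PRP : T_PRP :=
  Pool.Agent.H85.CE.pf_PRP

theorem c_REX : T_REX :=
  Pool.Agent.H91.CRX.pf_REX

theorem c_SBT : T_SBT :=
  Pool.Agent.H98.CEU.pf_SBT

theorem c_SHT : T_SHT :=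
  Pool.Agent.H61.CE.pf_SHT

theorem c_STL : T_STL :=
  Pool.Agent.H68.CE.pf_STL c_HFT c_NAT

theorem c_STM : T_STM :=
  Pool.Agent.H60.CE.pf_STM c_PFM c_HFT c_GLO c_NAT

theorem c_SUP : T_SUP :=
  Pool.Agent.H47.CE.pf_SUP

theorem c_TMN : T_TMN :=
  Pool.Agent.H60.CE.pf_TMN

theorem c_VIN : T_VIN :=
  Pool.Agent.H99.CE.pf_VIN c_CCP c_IND c_LOW

theorem c_VPT : T_VPT :=
  Pool.Agent.H17.CRX.pf_VPT

theorem c_VTH : T_VTH :=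
  Pool.Agent.H49.CE.pf_VTH

theorem c_WPF : T_WPF :=
  Pool.Agent.H91.CRX.pf_WPF

theorem c_ASP : T_ASP :=
  Pool.Agent.H36.CE.pf_ASP c_CCP c_IND c_LOW c_VIN

theorem c_BDC : T_BDC :=
  Pool.Agent.H11.CE.pf_BDC c_PFD

theorem c_BVN : T_BVN :=
  Pool.Agent.H40.CE.pf_BVN c_CCP c_IND

theorem c_CDC : T_CDC :=
  Pool.Agent.H79.CRX.pf_CDC c_PFD

theorem c_INS : T_INS :=
  Pool.Agent.H89.CE.pf_INS c_PFM c_BDC c_BBX

theorem c_MO1 : T_MO1 :=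
  Pool.Agent.H96.CE.pf_MO1 c_PFM

theorem c_MSS : T_MSS :=
  Pool.Agent.H96.CE.pf_MSS c_TMN

theorem c_ST1 : T_ST1 :=
  Pool.Agent.H99.CE.pf_ST1 c_PFM c_INS c_CCT c_ASP c_LNK c_SUP c_KHT c_SHT c_EST c_CBT c_NAT c_STL c_STM

theorem c_ST2 : T_ST2 :=
  Pool.Agent.H99.CE.pf_ST2 c_PFM c_INS c_CCP c_CCT c_HFT c_PHI c_ASP c_LNK c_SUP c_KHT c_SHT c_EST c_CBT c_NAT c_STL c_STM

theorem c_STR : T_STR :=
  Pool.Agent.H36.CE.pf_STR c_PFM c_BDC c_BBX c_REX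

theorem c_BAS : T_BAS :=
  Pool.Agent.H40.CE.pf_BAS c_CCP c_IND c_BVN

theorem c_BFM : T_BFM :=
  Pool.Agent.H98.CEU.pf_BFM c_PFM c_BBX c_CDC

theorem c_BG0 : T_BG0 :=
  Pool.Agent.H39.CE.pf_BG0 c_PFM c_CCT c_PHI c_MO1 c_BFM c_BAS c_LNG c_VPT c_MSS c_EBT c_SBT c_NNT c_VTH c_GHT c_GMU c_NAT

theorem c_BT0 : T_BT0 :=
  Pool.Agent.H39.CE.pf_BT0 c_PFM c_CCT c_MO1 c_BFM c_BAS c_LNG c_VPT c_MSS c_EBT c_SBT c_NNT c_VTH c_GHT c_NAT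

theorem c_FCR : T_FCR :=
  Pool.Agent.H49.CE.pf_FCR c_PFM c_LNK c_STR c_NAT c_WPF

theorem c_SR1 : T_SR1 :=
  Pool.Agent.H5.CE.pf_SR1 c_PFM c_LNK c_STR c_NAT

theorem c_SCL : T_SCL :=
  Pool.Agent.H51.CE.pf_SCL c_PFM c_HFT c_SR1 c_ST1 c_ST2 c_LYA

theorem c_UPR : T_UPR :=
  Pool.Agent.H85.CE.pf_UPR c_SCL c_FCR c_NEG c_BT0 c_BG0 c_PRL c_PRB c_PRP c_PRC

end Pool.Agent.H98.CEU
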